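import Mathlib
import Pool.Agent.H68R2.BP.Props2

/-!
G_std: the standard form of a corner, from the bicommutant statement `G_bic` and the
Tomita-Takesaki theorem `TT_main`.
-/

open scoped ComplexOrder InnerProductSpace ComplexConjugate Topology
open Finset Filter

noncomputable section

namespace H68R2.BP
open H759R2.Kad H744R2.KZ

namespace G_stdaux

variable {L : Type} [NormedAddCommGroup L] [InnerProductSpace ℂ L]

/-- `J A J` as a continuous linear map -/
def jcon (J : L → L) (hadd : ∀ x y, J (x + y) = J x + J y)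
    (hsmul : ∀ (c : ℂ) x, J (c • x) = conj c • J x) (hn : ∀ x, ‖J x‖ = ‖x‖) (A : L →L[ℂ] L) :
    L →L[ℂ] L :=
  LinearMap.mkContinuous
    { toFun := fun x => J (A (J x))
      map_add' := fun x y => by rw [hadd, map_add, hadd]
      map_smul' := fun c x => by
        rw [hsmul, map_smul, hsmul, RingHom.id_apply, Complex.conj_conj] } ‖A‖
    (fun x => by
      show ‖J (A (J x))‖ ≤ ‖A‖ * ‖x‖
      rw [hn]
      refine (A.le_opNorm _).trans ?_
      rw [hn])

theorem jcon_apply (J : L → L) (hadd : ∀ x y, J (x + y) = J x + J y)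
    (hsmul : ∀ (c : ℂ) x, J (c • x) = conj c • J x) (hn : ∀ x, ‖J x‖ = ‖x‖) (A : L →L[ℂ] L)
    (x : L) : jcon J hadd hsmul hn A x = J (A (J x)) := rfl

theorem jcon_norm (J : L → L) (hadd : ∀ x y, J (x + y) = J x + J y)
    (hsmul : ∀ (c : ℂ) x, J (c • x) = conj c • J x) (hn : ∀ x, ‖J x‖ = ‖x‖) (A : L →L[ℂ] L) :
    ‖jcon J hadd hsmul hn A‖ ≤ ‖A‖ :=
  LinearMap.mkContinuous_norm_le _ (norm_nonneg _) _

end G_stdaux

open G_stdaux

theorem prove_G_std (h1 : G_bic) (h2 : TT_main) : G_std := by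
  intro H _ _ _ M p hpM hp k Ω hΩ hsep
  obtain ⟨L, i1, i2, i3, l, w, N, hmul, hstar, hlp, hnorm, hw, hN, hcyc⟩ :=
    h1 H M p hpM hp k Ω hΩ hsep
  have cyc : ∀ x : L, (∀ T ∈ N, ⟪T w, x⟫_ℂ = 0) → x = 0 := fun x hx =>
    hcyc x fun a ha => hx (l a) ((hN _).2 ⟨a, ha, rfl⟩)
  have sep : ∀ T ∈ N, T w = 0 → T = 0 := by
    intro T hT hTw
    obtain ⟨a, ha, rfl⟩ := (hN T).1 hT
    have h3 := hw a ha
    rw [hTw, norm_zero] at h3
    have h4 := hsep a ha (norm_eq_zero.1 h3.symm)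
    rw [h4, map_zero]
  obtain ⟨J, hJ⟩ := h2 L N w cyc sep
  have hJn : ∀ x, ‖J x‖ = ‖x‖ := by
    intro x
    have h3 := hJ.inner x x
    rw [inner_self_eq_norm_sq_to_K, inner_self_eq_norm_sq_to_K] at h3
    have h4 : ‖J x‖ ^ 2 = ‖x‖ ^ 2 := by exact_mod_cast h3
    exact (pow_left_inj₀ (norm_nonneg _) (norm_nonneg _) (by norm_num)).1 h4
  have hJ0 : J 0 = 0 := by
    have := hJn 0
    rw [norm_zero] at this
    exact norm_eq_zero.1 this
  have hlN : ∀ a ∈ Cnr M p, l a ∈ N := fun a ha => (hN _).2 ⟨a, ha, rfl⟩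
  let r : (H →L[ℂ] H) → (L →L[ℂ] L) := fun a => jcon J hJ.add hJ.smul hJn (l a)
  have hr : ∀ a x, r a x = J (l a (J x)) := fun a x => rfl
  have hrw : ∀ a, r a w = J (l a w) := fun a => by rw [hr, hJ.fix]
  refine ⟨L, i1, i2, i3, l, r, w, ?_, hw⟩
  refine
    { bi :=
        { l_add := fun x y => map_add l x y
          l_smul := fun c x => map_smul l c x
          l_mul := hmul
          l_star := hstar
          l_norm := fun x hx => (hnorm x hx).le
          r_add := ?_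
          r_smul := ?_
          r_mul := ?_
          r_star := ?_
          r_norm := fun x hx => (jcon_norm J hJ.add hJ.smul hJn (l x)).trans (hnorm x hx).le
          comm := ?_ }
      l_p := hlp
      r_p := ?_
      isom := hnorm
      cyc := ?_
      herm := ?_
      pos := ?_
      full := ?_
      sym := ?_ }
  · intro x y
    ext v
    rw [add_apply, hr, hr, hr, map_add, add_apply, hJ.add]
  · intro c x
    ext v
    rw [smul_apply, hr, hr, map_smul, smul_apply, hJ.smul]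
  · intro x hx y hy
    ext v
    rw [mul_apply_eq_comp, hr, hr, hr, hmul x hx y hy, mul_apply_eq_comp,
      hJ.inv]
  · intro x hx
    rw [ContinuousLinearMap.star_eq_adjoint (r x), ContinuousLinearMap.eq_adjoint_iff]
    intro u v
    rw [hr, hr, hstar x hx, ContinuousLinearMap.star_eq_adjoint (l x)]
    calc ⟪J ((ContinuousLinearMap.adjoint (l x)) (J u)), v⟫_ℂ
        = ⟪J ((ContinuousLinearMap.adjoint (l x)) (J u)), J (J v)⟫_ℂ := by rw [hJ.inv]
      _ = ⟪J v, (ContinuousLinearMap.adjoint (l x)) (J u)⟫_ℂ := hJ.inner _ _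
      _ = ⟪l x (J v), J u⟫_ℂ := ContinuousLinearMap.adjoint_inner_right _ _ _
      _ = ⟪J (J u), J (l x (J v))⟫_ℂ := (hJ.inner _ _).symm
      _ = ⟪u, J (l x (J v))⟫_ℂ := by rw [hJ.inv]
  · intro x hx y hy
    ext v
    rw [mul_apply_eq_comp, mul_apply_eq_comp, hr, hr]
    exact hJ.comm (l x) (hlN x hx) (l y) (hlN y hy) v
  · ext v
    rw [hr, hlp, one_apply_eq_self, one_apply_eq_self, hJ.inv]
  · intro x hx
    have h3 : J x = 0 := by
      refine hcyc (J x) fun a ha => ?_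
      have h4 := hx a ha
      rw [hrw, ← hJ.inv x, hJ.inner] at h4
      rw [← inner_conj_symm, h4, map_zero]
    rw [← hJ.inv x, h3, hJ0]
  · intro a ha b hb
    rw [hrw, hrw]
    have h3 := hJ.comm (l b) (hlN b hb) (l a) (hlN a ha) w
    rw [hJ.fix] at h3
    rw [h3]
    calc ⟪w, J (l a (J (l b w)))⟫_ℂ = ⟪J w, J (l a (J (l b w)))⟫_ℂ := by rw [hJ.fix]
      _ = ⟪l a (J (l b w)), w⟫_ℂ := hJ.inner _ _
      _ = conj ⟪w, l a (J (l b w))⟫_ℂ := (inner_conj_symm _ _).symm
  · intro a ha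
    rw [hrw]
    have h3 := hJ.pos (l a) (hlN a ha)
    have h4 : ⟪w, l a (J (l a w))⟫_ℂ = conj ⟪J (l a w), star (l a) w⟫_ℂ := by
      rw [inner_conj_symm, ContinuousLinearMap.star_eq_adjoint,
        ContinuousLinearMap.adjoint_inner_left]
    rw [h4, Complex.conj_re]
    exact (Complex.le_def.1 h3).1
  · intro T hT
    obtain ⟨S, hS, hS2⟩ := hJ.full (jcon J hJ.add hJ.smul hJn T) (by
      intro S hS
      obtain ⟨a, ha, rfl⟩ := (hN S).1 hS
      ext v
      rw [mul_apply_eq_comp, mul_apply_eq_comp, jcon_apply, jcon_apply]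
      have h3 := DFunLike.congr_fun (hT a ha) (J v)
      rw [mul_apply_eq_comp, mul_apply_eq_comp, hr, hr, hJ.inv] at h3
      rw [h3, hJ.inv])
    obtain ⟨a, ha, hSa⟩ := (hN S).1 hS
    refine ⟨a, ha, ?_⟩
    rw [← hSa]
    ext v
    rw [hS2, jcon_apply, hJ.inv, hJ.inv]
  · intro a ha
    rw [hrw, hJn]

end H68R2.BP
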